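import Pool.Agent.V8H58.BV.Cyc

/-!
# Bar visibility: the number of pairs which come to a cyclic distance at most `r`
-/

open Finset

namespace Pool.Agent.V8H58.BV

noncomputable section

variable {V : Type*} [Fintype V] [DecidableEq V]

/-- the bars which are present at time `t` -/
def st (a b : V → ℕ) (t : ℕ) : Finset V := univ.filter fun v => a v < t ∧ t ≤ b v

/-- the pairs which have been at cyclic distance at most `r` until time `t` -/
def tot (h : V → ℝ) (r : ℕ) (a b : V → ℕ) (t : ℕ) : Finset (V × V) :=
  (range (t + 1)).biUnion fun s => cyc h r (st a b s)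

lemma mem_st {a b : V → ℕ} {t : ℕ} {v : V} : v ∈ st a b t ↔ a v < t ∧ t ≤ b v := by
  simp [st]

lemma tot_succ (h : V → ℝ) (r : ℕ) (a b : V → ℕ) (t : ℕ) :
    tot h r a b (t + 1) = tot h r a b t ∪ cyc h r (st a b (t + 1)) := by
  unfold tot
  rw [range_add_one (n := t + 1), biUnion_insert, union_comm]

lemma tot_card_succ (h : V → ℝ) (r : ℕ) (a b : V → ℕ) (t : ℕ) :
    (tot h r a b (t + 1)).card ≤
      (tot h r a b t).card + (cyc h r (st a b (t + 1)) \ cyc h r (st a b t)).card := by
  rw [tot_succ]
  have : tot h r a b t ∪ cyc h r (st a b (t + 1)) =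
      tot h r a b t ∪ (cyc h r (st a b (t + 1)) \ cyc h r (st a b t)) := by
    ext p
    simp only [mem_union, mem_sdiff]
    have hs : p ∈ cyc h r (st a b t) → p ∈ tot h r a b t := by
      intro hp
      exact mem_biUnion.2 ⟨t, mem_range.2 (by omega), hp⟩
    tauto
  rw [this]
  exact card_union_le _ _

/-- the number of the elements with value less than `t` -/
def below (a : V → ℕ) (t : ℕ) : ℕ := (univ.filter fun v => a v < t).card

lemma below_succ_of_eq {a : V → ℕ} (ha : Function.Injective a) {t : ℕ} {v : V} (hv : a v = t) :
    below a (t + 1) = below a t + 1 := by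
  unfold below
  have : (univ.filter fun u => a u < t + 1) = insert v (univ.filter fun u => a u < t) := by
    ext u
    simp only [mem_filter, mem_univ, true_and, mem_insert]
    constructor
    · intro hu
      by_cases hc : a u = t
      · exact Or.inl (ha (hc.trans hv.symm))
      · exact Or.inr (by omega)
    · rintro (rfl | hu)
      · omega
      · omega
  rw [this, card_insert_of_notMem]
  simp only [mem_filter, mem_univ, true_and]
  omega

lemma below_succ_of_ne {a : V → ℕ} {t : ℕ} (hv : ∀ v, a v ≠ t) :
    below a (t + 1) = below a t := by
  unfold below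
  congr 1
  ext u
  simp only [mem_filter, mem_univ, true_and]
  have := hv u
  omega

lemma below_eq {a b : V → ℕ} (hab : ∀ v, a v < b v) (t : ℕ) :
    below a t = (st a b t).card + below b t := by
  unfold below
  rw [← card_union_of_disjoint]
  · congr 1
    ext u
    simp only [mem_filter, mem_univ, true_and, mem_union, mem_st]
    have := hab u
    omega
  · rw [disjoint_left]
    intro u hu hu'
    rw [mem_st] at hu
    simp only [mem_filter, mem_univ, true_and] at hu'
    omega

/-- the invariant of the sweep: `T` pairs, `m` present bars, `I` inserted and `D` removed bars -/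
def Inv (r T m I D : ℤ) : Prop :=
  (T ≤ (2 * r - 1) * I ∧ 2 * T + m * (4 * r + 1 - m) ≤ 4 * r * I + 2 * r * D ∧ m ≤ 2 * r) ∨
  (T + r * (2 * r + 1) + r * max 0 (2 * r + 1 - m) ≤ 2 * r * I + r * D)

lemma inv_insert {r T T' m I D : ℤ} (hr : 1 ≤ r) (hI : Inv r T m I D)
    (h1 : T' ≤ T + m) (h2 : T' ≤ T + 2 * r) (hm : 0 ≤ m) (hD : 0 ≤ D) :
    Inv r T' (m + 1) (I + 1) D := by
  rcases hI with ⟨i1, i2, i3⟩ | i1
  · by_cases hc : m < 2 * r
    · left
      refine ⟨by nlinarith, by nlinarith, by omega⟩
    · have hm' : m = 2 * r := by omega
      right
      rw [max_eq_left (by omega)]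
      subst hm'
      nlinarith
  · right
    have h3 : max 0 (2 * r + 1 - (m + 1)) ≤ max 0 (2 * r + 1 - m) := by
      apply max_le_max_left
      omega
    nlinarith

lemma inv_erase_small {r T T' m I D : ℤ} (hr : 1 ≤ r) (hI : Inv r T m I D)
    (h1 : T' ≤ T) (hm : 1 ≤ m) (hm' : m ≤ 2 * r + 1) :
    Inv r T' (m - 1) I (D + 1) := by
  rcases hI with ⟨i1, i2, i3⟩ | i1
  · left
    refine ⟨by linarith, by nlinarith, by omega⟩
  · right
    rw [max_eq_right (by omega)] at i1 ⊢
    nlinarith

lemma inv_erase_big {r T T' m I D : ℤ} (hr : 1 ≤ r) (hI : Inv r T m I D)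
    (h1 : T' ≤ T + r) (hm' : 2 * r + 2 ≤ m) :
    Inv r T' (m - 1) I (D + 1) := by
  rcases hI with ⟨i1, i2, i3⟩ | i1
  · omega
  · right
    rw [max_eq_left (by omega)] at i1 ⊢
    nlinarith

theorem inv_all (h : V → ℝ) {r : ℕ} (hr : 1 ≤ r) {a b : V → ℕ} (hab : ∀ v, a v < b v)
    (ha : Function.Injective a) (hb : Function.Injective b) (hd : ∀ u v, a u ≠ b v)
    (hi : ∀ t, Set.InjOn h (st a b t)) (t : ℕ) :
    Inv r (tot h r a b t).card (st a b t).card (below a t) (below b t) := by
  induction t with
  | zero =>
    have e1 : st a b 0 = ∅ := by
      ext v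
      simp [mem_st]
    have e2 : tot h r a b 0 = ∅ := by
      unfold tot
      rw [zero_add, range_one, singleton_biUnion, e1]
      ext p
      simp [mem_cyc]
    have e3 : below a 0 = 0 := by simp [below]
    have e4 : below b 0 = 0 := by simp [below]
    rw [e1, e2, e3, e4]
    left
    simp
  | succ t ih =>
    have hcard := tot_card_succ h r a b t
    by_cases c1 : ∃ v, a v = t
    · obtain ⟨v, hv⟩ := c1
      have e1 : st a b (t + 1) = insert v (st a b t) := by
        ext u
        simp only [mem_insert, mem_st]
        have h1 := hab u
        have h2 := hd v u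
        constructor
        · intro hu
          by_cases hc : a u = t
          · exact Or.inl (ha (hc.trans hv.symm))
          · exact Or.inr (by omega)
        · rintro (rfl | hu)
          · omega
          · omega
      have hvn : v ∉ st a b t := by
        rw [mem_st]; omega
      have hib := insert_bound (r := r) hvn (e1 ▸ hi (t + 1))
      rw [← e1] at hib
      have e2 : (st a b (t + 1)).card = (st a b t).card + 1 := by
        rw [e1, card_insert_of_notMem hvn]
      have e3 := below_succ_of_eq ha hv
      have e4 : below b (t + 1) = below b t :=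
        below_succ_of_ne fun u hu => hd v u (hv.trans hu.symm)
      rw [e2, e3, e4]
      push_cast
      have hb1 := hib.trans (min_le_left _ _)
      have hb2 := hib.trans (min_le_right _ _)
      exact inv_insert (by exact_mod_cast hr) ih (by exact_mod_cast (by omega))
        (by exact_mod_cast (by omega)) (by positivity) (by positivity)
    · push Not at c1
      by_cases c2 : ∃ v, b v = t
      · obtain ⟨v, hv⟩ := c2
        have e1 : st a b t = insert v (st a b (t + 1)) := by
          ext u
          simp only [mem_insert, mem_st]
          have h1 := hab u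
          have h2 := c1 u
          constructor
          · intro hu
            by_cases hc : b u = t
            · exact Or.inl (hb (hc.trans hv.symm))
            · exact Or.inr (by omega)
          · rintro (rfl | hu)
            · omega
            · omega
        have hvn : v ∉ st a b (t + 1) := by
          rw [mem_st]; omega
        have e2 : (st a b t).card = (st a b (t + 1)).card + 1 := by
          rw [e1, card_insert_of_notMem hvn]
        have e3 := below_succ_of_eq hb hv
        have e4 : below a (t + 1) = below a t := below_succ_of_ne c1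
        have e5 : ((st a b (t + 1)).card : ℤ) = (st a b t).card - 1 := by
          rw [e2]; push_cast; ring
        rw [e3, e4, e5]
        push_cast
        by_cases c3 : (st a b (t + 1)).card ≤ 2 * r
        · have hs := erase_small (h := h) (r := r) hvn c3
          rw [← e1] at hs
          rw [sdiff_eq_empty_iff_subset.2 hs, card_empty] at hcard
          exact inv_erase_small (by exact_mod_cast hr) ih (by exact_mod_cast (by omega))
            (by exact_mod_cast (by omega)) (by exact_mod_cast (by omega))
        · have hs := erase_bound (h := h) (r := r) hvn (e1 ▸ hi t)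
          rw [← e1] at hs
          exact inv_erase_big (by exact_mod_cast hr) ih (by exact_mod_cast (by omega))
            (by exact_mod_cast (by omega))
      · push Not at c2
        have e1 : st a b (t + 1) = st a b t := by
          ext u
          simp only [mem_st]
          have h1 := c1 u
          have h2 := c2 u
          omega
        have e3 : below a (t + 1) = below a t := below_succ_of_ne c1
        have e4 : below b (t + 1) = below b t := below_succ_of_ne c2
        have e5 : tot h r a b (t + 1) = tot h r a b t := by
          rw [tot_succ, e1]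
          apply union_eq_left.2
          intro p hp
          exact mem_biUnion.2 ⟨t, mem_range.2 (by omega), hp⟩
        rw [e1, e3, e4, e5]
        exact ih

theorem tot_bound (h : V → ℝ) {r : ℕ} (hr : 1 ≤ r) {a b : V → ℕ} (hab : ∀ v, a v < b v)
    (ha : Function.Injective a) (hb : Function.Injective b) (hd : ∀ u v, a u ≠ b v)
    (hi : ∀ t, Set.InjOn h (st a b t)) (hn : 4 * r ≤ Fintype.card V) (t : ℕ)
    (ht : ∀ v, b v < t) :
    ((tot h r a b t).card : ℤ) ≤ r * (3 * Fintype.card V - 4 * r - 2) := by
  have key := inv_all h hr hab ha hb hd hi t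
  have e1 : st a b t = ∅ := by
    ext v
    have := ht v
    simp only [mem_st, notMem_empty, iff_false]
    omega
  have e2 : below b t = Fintype.card V := by
    unfold below
    rw [filter_true_of_mem fun v _ => ht v]
    rfl
  have e3 : below a t = Fintype.card V := by
    rw [below_eq hab, e1, e2, card_empty, zero_add]
  rw [e1, e2, e3, card_empty] at key
  have hr' : (1 : ℤ) ≤ r := by exact_mod_cast hr
  have hn' : (4 : ℤ) * r ≤ Fintype.card V := by exact_mod_cast hn
  rcases key with ⟨i1, i2, i3⟩ | i1
  · nlinarith
  · rw [Nat.cast_zero, sub_zero, max_eq_right (by omega)] at i1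
    nlinarith

end

end Pool.Agent.V8H58.BV
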