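import Mathlib

/-!
# Bar visibility: pairs at cyclic distance at most `r`

A finite set `S` of bars crossing a vertical line is ordered by the heights `h`. We count the pairs
at cyclic distance at most `r` which are new after the insertion or the removal of one bar.
-/

open Finset

namespace Pool.Agent.V8H58.BV

set_option linter.unusedSectionVars false

variable {V : Type*} [DecidableEq V]

noncomputable section

/-- number of elements of `S` below `x` -/
def pos (h : V → ℝ) (S : Finset V) (x : V) : ℕ := (S.filter fun z => h z < h x).card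

/-- the pairs (lower element, upper element) at cyclic distance at most `r` -/
def cyc (h : V → ℝ) (r : ℕ) (S : Finset V) : Finset (V × V) :=
  (S ×ˢ S).filter fun p => h p.1 < h p.2 ∧
    (pos h S p.2 ≤ pos h S p.1 + r ∨ pos h S p.1 + S.card ≤ pos h S p.2 + r)

variable {h : V → ℝ} {r : ℕ} {S : Finset V} {w x y : V}

lemma mem_cyc {p : V × V} : p ∈ cyc h r S ↔ (p.1 ∈ S ∧ p.2 ∈ S) ∧ h p.1 < h p.2 ∧
    (pos h S p.2 ≤ pos h S p.1 + r ∨ pos h S p.1 + S.card ≤ pos h S p.2 + r) := by
  simp [cyc]

lemma pos_lt_card (hx : x ∈ S) : pos h S x < S.card :=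
  card_lt_card (filter_ssubset.2 ⟨x, hx, lt_irrefl _⟩)

lemma pos_lt_pos (hx : x ∈ S) (hxy : h x < h y) : pos h S x < pos h S y := by
  apply card_lt_card
  refine ⟨fun z hz => ?_, fun hs => ?_⟩
  · simp only [mem_filter] at hz ⊢
    exact ⟨hz.1, hz.2.trans hxy⟩
  · have := hs (mem_filter.2 ⟨hx, hxy⟩)
    simp at this

lemma pos_inj (hi : Set.InjOn h S) (hx : x ∈ S) (hy : y ∈ S) (e : pos h S x = pos h S y) :
    x = y := by
  rcases lt_trichotomy (h x) (h y) with hl | hl | hl
  · have := pos_lt_pos hx hl; omega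
  · exact hi hx hy hl
  · have := pos_lt_pos hy hl; omega

lemma pos_insert (hw : w ∉ S) : pos h (insert w S) x = pos h S x + if h w < h x then 1 else 0 := by
  unfold pos
  rw [filter_insert]
  split_ifs with hc
  · rw [card_insert_of_notMem]
    simp [hw]
  · rfl

/-- Insertion of `w`: at most `min |S| (2 r)` new pairs. -/
theorem insert_bound (hw : w ∉ S) (hi : Set.InjOn h (insert w S : Finset V)) :
    (cyc h r (insert w S) \ cyc h r S).card ≤ min S.card (2 * r) := by
  have hc1 : (insert w S).card = S.card + 1 := card_insert_of_notMem hw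
  have hwm : w ∈ insert w S := mem_insert_self _ _
  -- every new pair involves `w`
  have key : ∀ p ∈ cyc h r (insert w S) \ cyc h r S,
      (p.1 = w ∧ p.2 ∈ S) ∨ (p.2 = w ∧ p.1 ∈ S) := by
    intro p hp
    rw [mem_sdiff, mem_cyc, mem_cyc] at hp
    obtain ⟨⟨⟨h1, h2⟩, h3, h4⟩, h5⟩ := hp
    rw [mem_insert] at h1 h2
    rcases h1 with h1 | h1 <;> rcases h2 with h2 | h2
    · rw [h1, h2] at h3; exact absurd h3 (lt_irrefl _)
    · exact Or.inl ⟨h1, h2⟩
    · exact Or.inr ⟨h2, h1⟩
    · exfalso
      apply h5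
      refine ⟨⟨h1, h2⟩, h3, ?_⟩
      rw [pos_insert hw, pos_insert hw, hc1] at h4
      by_cases c1 : h w < h p.1
      · have c2 : h w < h p.2 := c1.trans h3
        rw [if_pos c1, if_pos c2] at h4
        omega
      · rw [if_neg c1] at h4
        split_ifs at h4 <;> omega
  have hmem : ∀ p ∈ cyc h r (insert w S) \ cyc h r S, p.1 ∈ insert w S ∧ p.2 ∈ insert w S ∧
      h p.1 < h p.2 := by
    intro p hp
    rw [mem_sdiff, mem_cyc] at hp
    exact ⟨hp.1.1.1, hp.1.1.2, hp.1.2.1⟩
  apply le_min
  · apply card_le_card_of_injOn (fun p => if p.1 = w then p.2 else p.1)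
    · intro p hp
      have hk := key p hp
      simp only
      split_ifs with hc
      · rcases hk with hk | hk
        · exact hk.2
        · rw [hc] at hk; exact absurd hk.2 hw
      · rcases hk with hk | hk
        · exact absurd hk.1 hc
        · exact hk.2
    · intro p hp q hq e
      have hk := key p hp
      have hk' := key q hq
      have hm := hmem p hp
      have hm' := hmem q hq
      simp only at e
      rcases hk with ⟨a1, a2⟩ | ⟨a1, a2⟩ <;> rcases hk' with ⟨b1, b2⟩ | ⟨b1, b2⟩
      · rw [if_pos a1, if_pos b1] at e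
        exact Prod.ext (a1.trans b1.symm) e
      · have b3 : q.1 ≠ w := fun hh => hw (hh ▸ b2)
        rw [if_pos a1, if_neg b3] at e
        have u1 := hm.2.2
        have u2 := hm'.2.2
        rw [a1, e] at u1
        rw [b1] at u2
        exact absurd (u1.trans u2) (lt_irrefl _)
      · have b3 : p.1 ≠ w := fun hh => hw (hh ▸ a2)
        rw [if_neg b3, if_pos b1] at e
        have u1 := hm.2.2
        have u2 := hm'.2.2
        rw [a1, e] at u1
        rw [b1] at u2
        exact absurd (u1.trans u2) (lt_irrefl _)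
      · have b3 : q.1 ≠ w := fun hh => hw (hh ▸ b2)
        have b4 : p.1 ≠ w := fun hh => hw (hh ▸ a2)
        rw [if_neg b4, if_neg b3] at e
        exact Prod.ext e (a1.trans b1.symm)
  · have hcard : (Icc 1 r ∪ Icc (S.card + 1 - r) S.card).card ≤ 2 * r := by
      refine (card_union_le _ _).trans ?_
      rw [Nat.card_Icc, Nat.card_Icc]
      omega
    refine le_trans ?_ hcard
    apply card_le_card_of_injOn (fun p => if p.1 = w then pos h (insert w S) p.2 -
      pos h (insert w S) w else pos h (insert w S) p.1 + (S.card + 1) - pos h (insert w S) w)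
    · intro p hp
      have hk := key p hp
      rw [mem_coe, mem_sdiff, mem_cyc, mem_cyc] at hp
      obtain ⟨⟨⟨h1, h2⟩, h3, h4⟩, h5⟩ := hp
      have e1 := pos_lt_card (h := h) h1
      have e2 := pos_lt_card (h := h) h2
      have e3 := pos_lt_pos h1 h3
      rw [hc1] at h4 e1 e2
      simp only [mem_coe, mem_union, mem_Icc]
      rcases hk with ⟨a1, a2⟩ | ⟨a1, a2⟩
      · rw [if_pos a1]
        rw [a1] at e1 e3 h4
        omega
      · have b3 : p.1 ≠ w := fun hh => hw (hh ▸ a2)
        rw [if_neg b3]
        rw [a1] at e2 e3 h4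
        omega
    · intro p hp q hq e
      have hk := key p hp
      have hk' := key q hq
      obtain ⟨p1, p2, p3⟩ := hmem p hp
      obtain ⟨q1, q2, q3⟩ := hmem q hq
      have e1 := pos_lt_card (h := h) p1
      have e2 := pos_lt_card (h := h) p2
      have e3 := pos_lt_pos p1 p3
      have f1 := pos_lt_card (h := h) q1
      have f2 := pos_lt_card (h := h) q2
      have f3 := pos_lt_pos q1 q3
      rw [hc1] at e1 e2 f1 f2
      simp only at e
      rcases hk with ⟨a1, a2⟩ | ⟨a1, a2⟩ <;> rcases hk' with ⟨b1, b2⟩ | ⟨b1, b2⟩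
      · rw [if_pos a1, if_pos b1] at e
        rw [a1] at e1 e3
        rw [b1] at f1 f3
        refine Prod.ext (a1.trans b1.symm) (pos_inj hi p2 q2 ?_)
        omega
      · have b3 : q.1 ≠ w := fun hh => hw (hh ▸ b2)
        rw [if_pos a1, if_neg b3] at e
        rw [a1] at e1 e3
        rw [b1] at f2 f3
        omega
      · have b3 : p.1 ≠ w := fun hh => hw (hh ▸ a2)
        rw [if_neg b3, if_pos b1] at e
        rw [a1] at e2 e3
        rw [b1] at f1 f3
        omega
      · have b3 : q.1 ≠ w := fun hh => hw (hh ▸ b2)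
        have b4 : p.1 ≠ w := fun hh => hw (hh ▸ a2)
        rw [if_neg b4, if_neg b3] at e
        rw [a1] at e2 e3
        rw [b1] at f2 f3
        refine Prod.ext (pos_inj hi p1 q1 ?_) (a1.trans b1.symm)
        omega

/-- Removal of `w` from a small set: no new pairs. -/
theorem erase_small (hw : w ∉ S) (hm : S.card ≤ 2 * r) : cyc h r S ⊆ cyc h r (insert w S) := by
  intro p hp
  have hc1 : (insert w S).card = S.card + 1 := card_insert_of_notMem hw
  rw [mem_cyc] at hp ⊢
  obtain ⟨⟨h1, h2⟩, h3, h4⟩ := hp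
  refine ⟨⟨mem_insert_of_mem h1, mem_insert_of_mem h2⟩, h3, ?_⟩
  have e1 := pos_lt_card (h := h) (mem_insert_of_mem (b := w) h1)
  have e2 := pos_lt_card (h := h) (mem_insert_of_mem (b := w) h2)
  rw [hc1] at e1 e2 ⊢
  omega

/-- Removal of `w`: at most `r` new pairs. -/
theorem erase_bound (hw : w ∉ S) (hi : Set.InjOn h (insert w S : Finset V)) :
    (cyc h r S \ cyc h r (insert w S)).card ≤ r := by
  have hc1 : (insert w S).card = S.card + 1 := card_insert_of_notMem hw
  have hwm : w ∈ insert w S := mem_insert_self _ _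
  have ew := pos_lt_card (h := h) hwm
  rw [hc1] at ew
  have hD : ∀ p ∈ cyc h r S \ cyc h r (insert w S),
      p.1 ∈ insert w S ∧ p.2 ∈ insert w S ∧
      pos h (insert w S) p.1 < pos h (insert w S) p.2 ∧
      pos h (insert w S) p.2 < S.card + 1 ∧
      ((pos h (insert w S) p.1 < pos h (insert w S) w ∧ pos h (insert w S) w < pos h (insert w S) p.2 ∧
        pos h (insert w S) p.2 = pos h (insert w S) p.1 + r + 1) ∨
       ((pos h (insert w S) w < pos h (insert w S) p.1 ∨
        pos h (insert w S) p.2 < pos h (insert w S) w) ∧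
        pos h (insert w S) p.1 + (S.card + 1) = pos h (insert w S) p.2 + r + 1)) := by
    intro p hp
    rw [mem_sdiff, mem_cyc, mem_cyc] at hp
    obtain ⟨⟨⟨h1, h2⟩, h3, h4⟩, h5⟩ := hp
    have m1 : p.1 ∈ insert w S := mem_insert_of_mem h1
    have m2 : p.2 ∈ insert w S := mem_insert_of_mem h2
    have n1 : p.1 ≠ w := fun hh => hw (hh ▸ h1)
    have n2 : p.2 ≠ w := fun hh => hw (hh ▸ h2)
    have k1 : h p.1 ≠ h w := fun hh => n1 (hi m1 hwm hh)
    have k2 : h p.2 ≠ h w := fun hh => n2 (hi m2 hwm hh)
    have e2 := pos_lt_card (h := h) m2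
    have e3 := pos_lt_pos m1 h3
    rw [hc1] at e2
    have h6 : ¬ (pos h (insert w S) p.2 ≤ pos h (insert w S) p.1 + r ∨
        pos h (insert w S) p.1 + (S.card + 1) ≤ pos h (insert w S) p.2 + r) := by
      intro hh
      apply h5
      rw [hc1]
      exact ⟨⟨m1, m2⟩, h3, hh⟩
    push Not at h6
    obtain ⟨h7, h8⟩ := h6
    have i1 : pos h (insert w S) p.1 = pos h S p.1 + if h w < h p.1 then 1 else 0 := pos_insert hw
    have i2 : pos h (insert w S) p.2 = pos h S p.2 + if h w < h p.2 then 1 else 0 := pos_insert hw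
    refine ⟨m1, m2, e3, e2, ?_⟩
    rcases lt_or_gt_of_ne k1 with c1 | c1
    · have d1 := pos_lt_pos m1 c1
      rw [if_neg (not_lt.2 c1.le)] at i1
      rcases lt_or_gt_of_ne k2 with c2 | c2
      · have d2 := pos_lt_pos m2 c2
        rw [if_neg (not_lt.2 c2.le)] at i2
        right
        refine ⟨Or.inr d2, ?_⟩
        omega
      · have d2 := pos_lt_pos hwm c2
        rw [if_pos c2] at i2
        left
        refine ⟨d1, d2, ?_⟩
        omega
    · have c2 : h w < h p.2 := c1.trans h3
      have d1 := pos_lt_pos hwm c1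
      rw [if_pos c1] at i1
      rw [if_pos c2] at i2
      right
      refine ⟨Or.inl d1, ?_⟩
      omega
  have hcard : (Icc 1 r).card = r := by simp
  refine le_of_le_of_eq ?_ hcard
  apply card_le_card_of_injOn (fun p =>
    if pos h (insert w S) w < pos h (insert w S) p.1 then
      pos h (insert w S) w + (S.card + 1) - pos h (insert w S) p.2
    else if pos h (insert w S) w < pos h (insert w S) p.2 then
      pos h (insert w S) w - pos h (insert w S) p.1
    else pos h (insert w S) w - pos h (insert w S) p.2)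
  · intro p hp
    obtain ⟨m1, m2, h1, h2, h3⟩ := hD p hp
    simp only [coe_Icc, Set.mem_Icc]
    split_ifs <;> omega
  · intro p hp q hq e
    obtain ⟨m1, m2, h1, h2, h3⟩ := hD p hp
    obtain ⟨n1, n2, g1, g2, g3⟩ := hD q hq
    simp only at e
    have : pos h (insert w S) p.1 = pos h (insert w S) q.1 ∧
        pos h (insert w S) p.2 = pos h (insert w S) q.2 := by
      split_ifs at e <;> omega
    exact Prod.ext (pos_inj hi m1 n1 this.1) (pos_inj hi m2 n2 this.2)

end

end Pool.Agent.V8H58.BV
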