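import Mathlib

/-!
# Bar `k`-visibility graphs: definitions
-/

namespace Pool.Agent.V8H58.BV

/-- the closed horizontal segment of the plane from `(l, y)` to `(r, y)` -/
def segm (y l r : ℝ) : Set (ℝ × ℝ) := {p | l ≤ p.1 ∧ p.1 ≤ r ∧ p.2 = y}

/-- a family of pairwise disjoint bars: the bar of `v` is the closed horizontal segment from
`(l v, y v)` to `(r v, y v)`, where `l v < r v` -/
structure Bars (V : Type) where
  y : V → ℝ
  l : V → ℝ
  r : V → ℝ
  lt : ∀ v, l v < r v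
  disj : ∀ u v, u ≠ v → Disjoint (segm (y u) (l u) (r u)) (segm (y v) (l v) (r v))

/-- the bar of `v` -/
def Bars.bar {V : Type} (B : Bars V) (v : V) : Set (ℝ × ℝ) := segm (B.y v) (B.l v) (B.r v)

/-- There is a non-degenerate axis-parallel rectangle `[x₁, x₂] × [y₁, y₂]` with one horizontal side
contained in the bar of `u` and the other one contained in the bar of `v` which intersects at most
`k` other bars. -/
def Bars.Sees {V : Type} (B : Bars V) (k : ℕ) (u v : V) : Prop :=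
  ∃ x₁ x₂ y₁ y₂ : ℝ, x₁ < x₂ ∧ y₁ < y₂ ∧
    ((Set.Icc x₁ x₂ ×ˢ {y₁} ⊆ B.bar u ∧ Set.Icc x₁ x₂ ×ˢ {y₂} ⊆ B.bar v) ∨
      (Set.Icc x₁ x₂ ×ˢ {y₁} ⊆ B.bar v ∧ Set.Icc x₁ x₂ ×ˢ {y₂} ⊆ B.bar u)) ∧
    {w | w ≠ u ∧ w ≠ v ∧ (B.bar w ∩ Set.Icc x₁ x₂ ×ˢ Set.Icc y₁ y₂).Nonempty}.ncard ≤ k

/-- `G` has a bar `k`-visibility representation. -/
def IsBarVisibilityGraph (k : ℕ) {V : Type} (G : SimpleGraph V) : Prop :=
  ∃ B : Bars V, ∀ u v, u ≠ v → (G.Adj u v ↔ B.Sees k u v)

/-- the numbers of edges of the bar `k`-visibility graphs on `n` vertices -/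
def edgeNumbers (k n : ℕ) : Set ℕ :=
  {m | ∃ G : SimpleGraph (Fin n), IsBarVisibilityGraph k G ∧ G.edgeSet.ncard = m}

/-- `e_k(n)`, the maximum number of edges of a bar `k`-visibility graph on `n` vertices -/
noncomputable def maxEdges (k n : ℕ) : ℕ := sSup (edgeNumbers k n)

/-! ### Bars on the cylinder

The vertical lines are closed up at infinity; they become the circles of a cylinder, and the bars
are segments parallel to the axis of the cylinder. Two bars cut each circle which they meet in two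
points, and there are two arcs between these points: one is the vertical segment between them, the
other one is its complement, which goes around the cylinder. -/

/-- The bars of `u` and `v` contain the two ends of a band `[x₁, x₂] × (arc)` of positive width of
the cylinder which intersects at most `k` other bars. -/
def Bars.SeesAround {V : Type} (B : Bars V) (k : ℕ) (u v : V) : Prop :=
  ∃ x₁ x₂ y₁ y₂ : ℝ, x₁ < x₂ ∧ y₁ < y₂ ∧
    ((Set.Icc x₁ x₂ ×ˢ {y₁} ⊆ B.bar u ∧ Set.Icc x₁ x₂ ×ˢ {y₂} ⊆ B.bar v) ∨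
      (Set.Icc x₁ x₂ ×ˢ {y₁} ⊆ B.bar v ∧ Set.Icc x₁ x₂ ×ˢ {y₂} ⊆ B.bar u)) ∧
    ({w | w ≠ u ∧ w ≠ v ∧ (B.bar w ∩ Set.Icc x₁ x₂ ×ˢ Set.Icc y₁ y₂).Nonempty}.ncard ≤ k ∨
      {w | w ≠ u ∧ w ≠ v ∧ (B.bar w ∩ Set.Icc x₁ x₂ ×ˢ (Set.Ioo y₁ y₂)ᶜ).Nonempty}.ncard ≤ k)

/-- `G` has a bar `k`-visibility representation on the cylinder. -/
def IsCylinderVisibilityGraph (k : ℕ) {V : Type} (G : SimpleGraph V) : Prop :=
  ∃ B : Bars V, ∀ u v, u ≠ v → (G.Adj u v ↔ B.SeesAround k u v)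

/-- the numbers of edges of the bar `k`-visibility graphs on the cylinder with `n` vertices -/
def cylinderEdgeNumbers (k n : ℕ) : Set ℕ :=
  {m | ∃ G : SimpleGraph (Fin n), IsCylinderVisibilityGraph k G ∧ G.edgeSet.ncard = m}

end Pool.Agent.V8H58.BV
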