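import Pool.Agent.V8H58.BV.Defs

/-!
# Bar `k`-visibility graphs: the lower bound for the number of edges
-/

open Finset

namespace Pool.Agent.V8H58.BV

noncomputable section

/-! ### Bars with integral end points -/

/-- bars with integral coordinates and different heights -/
def intBars {V : Type} (H L R : V → ℤ) (hH : Function.Injective H) (hLR : ∀ v, L v < R v) :
    Bars V where
  y v := H v
  l v := L v
  r v := R v
  lt v := by exact_mod_cast hLR v
  disj u v huv := by
    rw [Set.disjoint_left]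
    rintro p ⟨-, -, h1⟩ ⟨-, -, h2⟩
    apply huv
    apply hH
    have : (H u : ℝ) = H v := h1.symm.trans h2
    exact_mod_cast this

/-- lines of sight in a unit slot -/
theorem sees_of_slot {V : Type} [Fintype V] {H L R : V → ℤ} (hH : Function.Injective H)
    (hLR : ∀ v, L v < R v) {k : ℕ} {u v : V} (t : ℤ) (huv : H u < H v)
    (hu : L u ≤ t ∧ t + 1 ≤ R u) (hv : L v ≤ t ∧ t + 1 ≤ R v) (F : Finset ℤ) (hF : F.card ≤ k)
    (hw : ∀ w, L w ≤ t → t + 1 ≤ R w → H u < H w → H w < H v → H w ∈ F) :
    (intBars H L R hH hLR).Sees k u v := by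
  refine ⟨t + 1 / 3, t + 2 / 3, H u, H v, by linarith, by exact_mod_cast huv, Or.inl ⟨?_, ?_⟩, ?_⟩
  · rintro ⟨x, y⟩ ⟨⟨h1, h2⟩, h3⟩
    have e1 : (L u : ℝ) ≤ t := by exact_mod_cast hu.1
    have e2 : (t : ℝ) + 1 ≤ R u := by exact_mod_cast hu.2
    exact ⟨by show (L u : ℝ) ≤ x; simp only at h1; linarith,
      by show x ≤ (R u : ℝ); simp only at h2; linarith, h3⟩
  · rintro ⟨x, y⟩ ⟨⟨h1, h2⟩, h3⟩
    have e1 : (L v : ℝ) ≤ t := by exact_mod_cast hv.1
    have e2 : (t : ℝ) + 1 ≤ R v := by exact_mod_cast hv.2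
    exact ⟨by show (L v : ℝ) ≤ x; simp only at h1; linarith,
      by show x ≤ (R v : ℝ); simp only at h2; linarith, h3⟩
  · refine le_trans ?_ hF
    rw [← Set.ncard_coe_finset F]
    apply Set.ncard_le_ncard_of_injOn H _ hH.injOn (Set.toFinite _)
    rintro w ⟨hwu, hwv, ⟨x, y⟩, ⟨h1, h2, h3⟩, ⟨h4, h5⟩, h6, h7⟩
    have g1 : (L w : ℝ) ≤ x := h1
    have g2 : x ≤ (R w : ℝ) := h2
    have g3 : y = (H w : ℝ) := h3
    simp only at h4 h5 h6 h7
    rw [g3] at h6 h7
    have m1 : L w < t + 1 := by
      have : (L w : ℝ) < ((t + 1 : ℤ) : ℝ) := by push_cast; linarith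
      exact_mod_cast this
    have m2 : t < R w := by
      have : (t : ℝ) < (R w : ℝ) := by linarith
      exact_mod_cast this
    have m3 : H u ≤ H w := by exact_mod_cast h6
    have m4 : H w ≤ H v := by exact_mod_cast h7
    have m5 : H w ≠ H u := fun hh => hwu (hH hh)
    have m6 : H w ≠ H v := fun hh => hwv (hH hh)
    exact hw w (by omega) (by omega) (by omega) (by omega)

/-! ### The graph of a family of bars -/

theorem Bars.sees_comm {V : Type} (B : Bars V) (k : ℕ) (u v : V) (h : B.Sees k u v) :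
    B.Sees k v u := by
  obtain ⟨x₁, x₂, y₁, y₂, hx, hy, hc, hk⟩ := h
  refine ⟨x₁, x₂, y₁, y₂, hx, hy, hc.symm, ?_⟩
  have : {w | w ≠ v ∧ w ≠ u ∧ (B.bar w ∩ Set.Icc x₁ x₂ ×ˢ Set.Icc y₁ y₂).Nonempty} =
      {w | w ≠ u ∧ w ≠ v ∧ (B.bar w ∩ Set.Icc x₁ x₂ ×ˢ Set.Icc y₁ y₂).Nonempty} := by
    ext w
    simp only [Set.mem_ofPred_eq]
    tauto
  rw [this]
  exact hk

/-- the bar `k`-visibility graph of `B` -/
def Bars.graph {V : Type} (B : Bars V) (k : ℕ) : SimpleGraph V where
  Adj u v := u ≠ v ∧ B.Sees k u v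
  symm := ⟨fun u v h => ⟨h.1.symm, B.sees_comm k u v h.2⟩⟩
  loopless := ⟨fun u h => h.1 rfl⟩

theorem Bars.graph_isBar {V : Type} (B : Bars V) (k : ℕ) : IsBarVisibilityGraph k (B.graph k) :=
  ⟨B, fun _ _ h => ⟨fun hh => hh.2, fun hh => ⟨h, hh⟩⟩⟩

/-! ### The extremal families -/

variable (n r : ℕ)

/-- the height of the bar `i` -/
def HH (i : Fin n) : ℤ :=
  if (i : ℕ) < r then i + 1 else if (i : ℕ) < 2 * r then n - 2 * r + i + 1
  else if (i : ℕ) < 3 * r then n - 4 * r + i + 1 else r + n - i

/-- the left end of the bar `i` -/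
def LL (i : Fin n) : ℤ :=
  if (i : ℕ) < r then i - r else if (i : ℕ) < 2 * r then r - i - 1 else n - i

/-- the right end of the bar `i` -/
def RR (i : Fin n) : ℤ :=
  if (i : ℕ) < r then n - i + 1 else if (i : ℕ) < 2 * r then n - 2 * r + 2 + i
  else if (i : ℕ) < 3 * r then n + 2 else n - i + 2 * r + 1

variable {n r}

lemma HH_inj (hn : 4 * r ≤ n) : Function.Injective (HH n r) := by
  intro i j h
  have hi := i.2
  have hj := j.2
  apply Fin.ext
  unfold HH at h
  split_ifs at h <;> omega

lemma LL_lt_RR (hn : 4 * r ≤ n) (i : Fin n) : LL n r i < RR n r i := by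
  have hi := i.2
  unfold LL RR
  split_ifs <;> omega

/-- the extremal family -/
def ext (hn : 4 * r ≤ n) : Bars (Fin n) := intBars (HH n r) (LL n r) (RR n r) (HH_inj hn) (LL_lt_RR hn)

/-- the back neighbours of the bar `j` -/
theorem ext_sees (hr : 1 ≤ r) (hn : 4 * r ≤ n) {i j : Fin n} (hij : (i : ℕ) < j)
    (h : (j : ℕ) < 4 * r ∨ (i : ℕ) < 2 * r ∨ (3 * r ≤ (i : ℕ) ∧ (j : ℕ) ≤ i + r)) :
    (ext hn).Sees (r - 1) i j := by
  have hi := i.2
  have hj := j.2
  by_cases i1 : (i : ℕ) < r
  · by_cases j1 : (j : ℕ) < r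
    · -- A, A
      refine sees_of_slot (HH_inj hn) (LL_lt_RR hn) (-1) ?_ ?_ ?_ (Ioo (HH n r i) (HH n r j)) ?_ ?_
      · simp only [HH, i1, j1, if_true]; omega
      · simp only [LL, RR, i1, if_true]; omega
      · simp only [LL, RR, j1, if_true]; omega
      · simp only [HH, i1, j1, if_true, Int.card_Ioo]; omega
      · intro w _ _ h1 h2
        exact mem_Ioo.2 ⟨h1, h2⟩
    · by_cases j2 : (j : ℕ) < 2 * r
      · -- A, B
        refine sees_of_slot (HH_inj hn) (LL_lt_RR hn) (max ((i : ℤ) - r) (r - j - 1)) ?_ ?_ ?_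
          (Ioc ((i : ℤ) + 1) (max ((i : ℤ) - r) (r - j - 1) + r + 1) ∪
            Ico ((n : ℤ) - r - max ((i : ℤ) - r) (r - j - 1)) (n - 2 * r + j + 1)) ?_ ?_
        · simp only [HH, i1, j1, j2, if_true, if_false]; omega
        · simp only [LL, RR, i1, if_true]; omega
        · simp only [LL, RR, j1, j2, if_true, if_false]; omega
        · refine (card_union_le _ _).trans ?_
          rw [Int.card_Ioc, Int.card_Ico]
          omega
        · intro w h1 h2 h3 h4
          have hw := w.2
          rw [mem_union, mem_Ioc, mem_Ico]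
          simp only [HH, LL, RR, i1, j1, j2, if_true, if_false] at h1 h2 h3 h4 ⊢
          split_ifs at * <;> omega
      · by_cases j3 : (j : ℕ) < 3 * r
        · -- A, C
          refine sees_of_slot (HH_inj hn) (LL_lt_RR hn) ((n : ℤ) - i) ?_ ?_ ?_
            (Ico ((n : ℤ) - 2 * r + 1) (n - 4 * r + j + 1)) ?_ ?_
          · simp only [HH, i1, j1, j2, j3, if_true, if_false]; omega
          · simp only [LL, RR, i1, if_true]; omega
          · simp only [LL, RR, j1, j2, j3, if_true, if_false]; omega
          · rw [Int.card_Ico]; omega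
          · intro w h1 h2 h3 h4
            have hw := w.2
            rw [mem_Ico]
            simp only [HH, LL, RR, i1, j1, j2, j3, if_true, if_false] at h1 h2 h3 h4 ⊢
            split_ifs at * <;> omega
        · -- A, D
          refine sees_of_slot (HH_inj hn) (LL_lt_RR hn) ((n : ℤ) - j + 2 * r) ?_ ?_ ?_
            (Ioc ((i : ℤ) + 1) r) ?_ ?_
          · simp only [HH, i1, j1, j2, j3, if_true, if_false]; omega
          · simp only [LL, RR, i1, if_true]; omega
          · simp only [LL, RR, j1, j2, j3, if_false]; omega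
          · rw [Int.card_Ioc]; omega
          · intro w h1 h2 h3 h4
            have hw := w.2
            rw [mem_Ioc]
            simp only [HH, LL, RR, i1, j1, j2, j3, if_true, if_false] at h1 h2 h3 h4 ⊢
            split_ifs at * <;> omega
  · by_cases i2 : (i : ℕ) < 2 * r
    · have j1 : ¬ (j : ℕ) < r := by omega
      by_cases j2 : (j : ℕ) < 2 * r
      · -- B, B
        refine sees_of_slot (HH_inj hn) (LL_lt_RR hn) (-1) ?_ ?_ ?_ (Ioo (HH n r i) (HH n r j))
          ?_ ?_
        · simp only [HH, i1, i2, j1, j2, if_true, if_false]; omega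
        · simp only [LL, RR, i1, i2, if_true, if_false]; omega
        · simp only [LL, RR, j1, j2, if_true, if_false]; omega
        · simp only [HH, i1, i2, j1, j2, if_true, if_false, Int.card_Ioo]; omega
        · intro w _ _ h1 h2
          exact mem_Ioo.2 ⟨h1, h2⟩
      · by_cases j3 : (j : ℕ) < 3 * r
        · -- B, C
          apply Bars.sees_comm
          refine sees_of_slot (HH_inj hn) (LL_lt_RR hn) ((n : ℤ) - 2 * r + i + 1) ?_ ?_ ?_
            (Ioc ((n : ℤ) - 4 * r + j + 1) (n - r)) ?_ ?_
          · simp only [HH, i1, i2, j1, j2, j3, if_true, if_false]; omega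
          · simp only [LL, RR, j1, j2, j3, if_true, if_false]; omega
          · simp only [LL, RR, i1, i2, if_true, if_false]; omega
          · rw [Int.card_Ioc]; omega
          · intro w h1 h2 h3 h4
            have hw := w.2
            rw [mem_Ioc]
            simp only [HH, LL, RR, i1, i2, j1, j2, j3, if_true, if_false] at h1 h2 h3 h4 ⊢
            split_ifs at * <;> omega
        · -- B, D
          apply Bars.sees_comm
          refine sees_of_slot (HH_inj hn) (LL_lt_RR hn) ((n : ℤ) - j) ?_ ?_ ?_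
            (Ico ((n : ℤ) - r + 1) (n - 2 * r + i + 1)) ?_ ?_
          · simp only [HH, i1, i2, j1, j2, j3, if_true, if_false]; omega
          · simp only [LL, RR, j1, j2, j3, if_false]; omega
          · simp only [LL, RR, i1, i2, if_true, if_false]; omega
          · rw [Int.card_Ico]; omega
          · intro w h1 h2 h3 h4
            have hw := w.2
            rw [mem_Ico]
            simp only [HH, LL, RR, i1, i2, j1, j2, j3, if_true, if_false] at h1 h2 h3 h4 ⊢
            split_ifs at * <;> omega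
    · have j1 : ¬ (j : ℕ) < r := by omega
      have j2 : ¬ (j : ℕ) < 2 * r := by omega
      by_cases i3 : (i : ℕ) < 3 * r
      · by_cases j3 : (j : ℕ) < 3 * r
        · -- C, C
          refine sees_of_slot (HH_inj hn) (LL_lt_RR hn) ((n : ℤ) - i) ?_ ?_ ?_
            (Ioo (HH n r i) (HH n r j)) ?_ ?_
          · simp only [HH, i1, i2, i3, j1, j2, j3, if_true, if_false]; omega
          · simp only [LL, RR, i1, i2, i3, if_true, if_false]; omega
          · simp only [LL, RR, j1, j2, j3, if_true, if_false]; omega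
          · simp only [HH, i1, i2, i3, j1, j2, j3, if_true, if_false, Int.card_Ioo]; omega
          · intro w _ _ h1 h2
            exact mem_Ioo.2 ⟨h1, h2⟩
        · -- C, D
          have j4 : (j : ℕ) < 4 * r := by omega
          apply Bars.sees_comm
          refine sees_of_slot (HH_inj hn) (LL_lt_RR hn) ((n : ℤ) - i) ?_ ?_ ?_
            (Ioc ((r : ℤ) + n - j) (n - 2 * r)) ?_ ?_
          · simp only [HH, i1, i2, i3, j1, j2, j3, if_true, if_false]; omega
          · simp only [LL, RR, j1, j2, j3, if_false]; omega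
          · simp only [LL, RR, i1, i2, i3, if_true, if_false]; omega
          · rw [Int.card_Ioc]; omega
          · intro w h1 h2 h3 h4
            have hw := w.2
            rw [mem_Ioc]
            simp only [HH, LL, RR, i1, i2, i3, j1, j2, j3, if_true, if_false] at h1 h2 h3 h4 ⊢
            split_ifs at * <;> omega
      · have j3 : ¬ (j : ℕ) < 3 * r := by omega
        -- D, D
        apply Bars.sees_comm
        refine sees_of_slot (HH_inj hn) (LL_lt_RR hn) ((n : ℤ) - i) ?_ ?_ ?_
          (Ioo (HH n r j) (HH n r i)) ?_ ?_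
        · simp only [HH, i1, i2, i3, j1, j2, j3, if_false]; omega
        · simp only [LL, RR, j1, j2, j3, if_false]; omega
        · simp only [LL, RR, i1, i2, i3, if_false]; omega
        · simp only [HH, i1, i2, i3, j1, j2, j3, if_false, Int.card_Ioo]; omega
        · intro w _ _ h1 h2
          exact mem_Ioo.2 ⟨h1, h2⟩

end

end Pool.Agent.V8H58.BV
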