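import Pool.Agent.V8H58.BV.Upper
import Pool.Agent.V8H58.BV.Lower

/-!
# Bar `k`-visibility graphs: the maximum number of edges
-/

open Finset

namespace Pool.Agent.V8H58.BV

noncomputable section

open Classical in
/-- the edges counted at their larger end -/
theorem sum_back_le {n : ℕ} (G : SimpleGraph (Fin n)) :
    ∑ j : Fin n, (univ.filter fun i : Fin n => i < j ∧ G.Adj i j).card ≤ G.edgeSet.ncard := by
  have h1 : ∑ j : Fin n, (univ.filter fun i : Fin n => i < j ∧ G.Adj i j).card =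
      ((univ : Finset (Fin n)).sigma
        fun j => univ.filter fun i : Fin n => i < j ∧ G.Adj i j).card := by
    rw [card_sigma]
  rw [h1, ← Set.ncard_coe_finset]
  apply Set.ncard_le_ncard_of_injOn (fun p : (_ : Fin n) × Fin n => s(p.2, p.1)) _ _
    (Set.toFinite _)
  · rintro ⟨j, i⟩ hp
    rw [mem_coe, mem_sigma, mem_filter] at hp
    rw [SimpleGraph.mem_edgeSet]
    exact hp.2.2.2
  · rintro ⟨j, i⟩ hp ⟨j', i'⟩ hp' e
    rw [mem_coe, mem_sigma, mem_filter] at hp hp'
    simp only [Sym2.eq_iff] at e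
    have g1 : i < j := hp.2.2.1
    have g2 : i' < j' := hp'.2.2.1
    rcases e with ⟨e1, e2⟩ | ⟨e1, e2⟩
    · rw [e1, e2]
    · rw [e1, e2] at g1
      exact absurd (g1.trans g2) (lt_irrefl _)

theorem sum_value (r : ℕ) (n : ℕ) (hn : 4 * r ≤ n) :
    ((∑ j ∈ range n, if j < 4 * r then j else 3 * r : ℕ) : ℤ) = r * (3 * n - 4 * r - 2) := by
  induction n, hn using Nat.le_induction with
  | base =>
    have h1 : (∑ j ∈ range (4 * r), if j < 4 * r then j else 3 * r) = ∑ j ∈ range (4 * r), j :=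
      sum_congr rfl fun j hj => if_pos (mem_range.1 hj)
    rw [h1]
    have h2 := sum_range_id_mul_two (4 * r)
    rcases Nat.eq_zero_or_pos r with rfl | hr
    · simp
    · have h3 : ((∑ j ∈ range (4 * r), j : ℕ) : ℤ) * 2 = (4 * r : ℕ) * ((4 * r - 1 : ℕ) : ℤ) := by
        exact_mod_cast h2
      rw [Nat.cast_sub (by omega)] at h3
      push_cast at h3 ⊢
      nlinarith
  | succ m hm ih =>
    rw [sum_range_succ, if_neg (by omega)]
    push_cast at ih ⊢
    rw [ih]
    ring

theorem lower {k n : ℕ} (hn : 4 * (k + 1) ≤ n) :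
    (((ext hn).graph k).edgeSet.ncard : ℤ) ≥ (k + 1) * (3 * n - 4 * k - 6) := by
  classical
  have h1 := sum_back_le ((ext hn).graph k)
  have h2 : ∑ j : Fin n, (if (j : ℕ) < 4 * (k + 1) then (j : ℕ) else 3 * (k + 1)) ≤
      ∑ j : Fin n, (univ.filter fun i : Fin n => i < j ∧ ((ext hn).graph k).Adj i j).card := by
    apply sum_le_sum
    intro j _
    have hj := j.2
    have hadj : ∀ i : Fin n, i < j → ((j : ℕ) < 4 * (k + 1) ∨ (i : ℕ) < 2 * (k + 1) ∨
        (3 * (k + 1) ≤ (i : ℕ) ∧ (j : ℕ) ≤ i + (k + 1))) → ((ext hn).graph k).Adj i j := by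
      intro i hij hc
      exact ⟨hij.ne, ext_sees (r := k + 1) (by omega) hn hij hc⟩
    split_ifs with hc
    · have : (univ.filter fun i : Fin n => i < j ∧ ((ext hn).graph k).Adj i j) = Iio j := by
        apply Finset.ext
        intro i
        simp only [mem_filter, mem_univ, true_and, mem_Iio]
        exact ⟨fun hh => hh.1, fun hh => ⟨hh, hadj i hh (Or.inl hc)⟩⟩
      rw [this, Fin.card_Iio]
    · have h3 : range (2 * (k + 1)) ∪ Ico ((j : ℕ) - (k + 1)) j ⊆
          (univ.filter fun i : Fin n => i < j ∧ ((ext hn).graph k).Adj i j).image Fin.val := by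
        intro x hx
        rw [mem_union, mem_range, mem_Ico] at hx
        rw [mem_image]
        have hxj : x < (j : ℕ) := by omega
        refine ⟨⟨x, hxj.trans hj⟩, ?_, rfl⟩
        rw [mem_filter]
        refine ⟨mem_univ _, hxj, hadj _ hxj ?_⟩
        show (j : ℕ) < 4 * (k + 1) ∨ x < 2 * (k + 1) ∨ (3 * (k + 1) ≤ x ∧ (j : ℕ) ≤ x + (k + 1))
        omega
      have h4 := (card_le_card h3).trans card_image_le
      refine le_trans ?_ h4
      rw [card_union_of_disjoint]
      · rw [card_range, Nat.card_Ico]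
        omega
      · rw [disjoint_left]
        intro x hx hx'
        rw [mem_range] at hx
        rw [mem_Ico] at hx'
        omega
  have h3 : ∑ j : Fin n, (if (j : ℕ) < 4 * (k + 1) then (j : ℕ) else 3 * (k + 1)) =
      ∑ j ∈ range n, (if j < 4 * (k + 1) then j else 3 * (k + 1)) :=
    Fin.sum_univ_eq_sum_range (fun j => if j < 4 * (k + 1) then j else 3 * (k + 1)) n
  have h4 := sum_value (k + 1) n hn
  rw [h3] at h2
  have h5 : ((∑ j ∈ range n, if j < 4 * (k + 1) then j else 3 * (k + 1) : ℕ) : ℤ) ≤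
      ((ext hn).graph k).edgeSet.ncard := by
    exact_mod_cast h2.trans h1
  rw [h4] at h5
  push_cast at h5
  linarith

/-- a subfamily of bars -/
def Bars.sub {V W : Type} (B : Bars V) (f : W → V) (hf : Function.Injective f) : Bars W where
  y w := B.y (f w)
  l w := B.l (f w)
  r w := B.r (f w)
  lt w := B.lt (f w)
  disj u v huv := B.disj (f u) (f v) fun h => huv (hf h)

theorem Bars.sub_sees {V W : Type} [Fintype V] (B : Bars V) (f : W → V)
    (hf : Function.Injective f) {k : ℕ} {u v : W} (h : B.Sees k (f u) (f v)) :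
    (B.sub f hf).Sees k u v := by
  obtain ⟨x₁, x₂, y₁, y₂, hx, hy, hc, hk⟩ := h
  refine ⟨x₁, x₂, y₁, y₂, hx, hy, hc, le_trans ?_ hk⟩
  apply Set.ncard_le_ncard_of_injOn f _ hf.injOn (Set.toFinite _)
  rintro w ⟨h1, h2, h3⟩
  exact ⟨fun h => h1 (hf h), fun h => h2 (hf h), h3⟩

theorem complete {k n : ℕ} (hn : n ≤ 4 * (k + 1)) :
    IsBarVisibilityGraph k (⊤ : SimpleGraph (Fin n)) := by
  refine ⟨(ext (n := 4 * (k + 1)) (r := k + 1) le_rfl).sub (Fin.castLE hn)
    (Fin.castLE_injective hn), fun u v huv => ⟨fun _ => ?_, fun _ => huv⟩⟩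
  apply Bars.sub_sees
  rcases lt_or_gt_of_ne huv with h | h
  · exact ext_sees (r := k + 1) (by omega) le_rfl h (Or.inl (Fin.castLE hn v).2)
  · apply Bars.sees_comm
    exact ext_sees (r := k + 1) (by omega) le_rfl h (Or.inl (Fin.castLE hn u).2)

theorem ncard_top (n : ℕ) : (⊤ : SimpleGraph (Fin n)).edgeSet.ncard = n.choose 2 := by
  classical
  rw [Set.ncard_eq_toFinset_card']
  have := SimpleGraph.card_edgeFinset_top_eq_card_choose_two (V := Fin n)
  rw [Fintype.card_fin] at this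
  rw [← this]
  congr 1

theorem ncard_le {n : ℕ} (G : SimpleGraph (Fin n)) : G.edgeSet.ncard ≤ n.choose 2 := by
  rw [← ncard_top]
  apply Set.ncard_le_ncard _ (Set.toFinite _)
  exact SimpleGraph.edgeSet_subset_edgeSet.2 le_top

/-- **The maximum number of edges of a bar `k`-visibility graph on `n` vertices.** -/
theorem greatest (k n : ℕ) : IsGreatest (edgeNumbers k n)
    (if n ≤ 4 * k + 4 then n.choose 2 else (k + 1) * (3 * n - 4 * k - 6)) := by
  split_ifs with hn
  · refine ⟨⟨⊤, complete (by omega), ncard_top n⟩, ?_⟩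
    rintro m ⟨G, -, rfl⟩
    exact ncard_le G
  · have hn' : 4 * (k + 1) ≤ n := by omega
    have e : (((k + 1) * (3 * n - 4 * k - 6) : ℕ) : ℤ) = (k + 1) * (3 * n - 4 * k - 6) := by
      rw [Nat.sub_sub, Nat.cast_mul, Nat.cast_sub (by omega)]
      push_cast
      ring
    refine ⟨⟨(ext hn').graph k, Bars.graph_isBar _ k, ?_⟩, ?_⟩
    · have h1 := upper hn' (Bars.graph_isBar (ext hn') k)
      have h2 := lower (k := k) hn'
      have h3 : (((ext hn').graph k).edgeSet.ncard : ℤ) =
          (((k + 1) * (3 * n - 4 * k - 6) : ℕ) : ℤ) := by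
        rw [e]
        exact le_antisymm h1 h2
      exact_mod_cast h3
    · rintro m ⟨G, hG, rfl⟩
      have h1 := upper hn' hG
      rw [← e] at h1
      exact_mod_cast h1

/-! ### The cylinder -/

theorem Bars.around_comm {V : Type} (B : Bars V) (k : ℕ) (u v : V) (h : B.SeesAround k u v) :
    B.SeesAround k v u := by
  obtain ⟨x₁, x₂, y₁, y₂, hx, hy, hc, hk⟩ := h
  refine ⟨x₁, x₂, y₁, y₂, hx, hy, hc.symm, ?_⟩
  have hh : ∀ T : Set (ℝ × ℝ), {w | w ≠ v ∧ w ≠ u ∧ (B.bar w ∩ T).Nonempty} =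
      {w | w ≠ u ∧ w ≠ v ∧ (B.bar w ∩ T).Nonempty} := by
    intro T
    apply Set.ext
    intro w
    simp only [Set.mem_ofPred_eq]
    tauto
  rw [hh, hh]
  exact hk

/-- the bar `k`-visibility graph of `B` on the cylinder -/
def Bars.cyl {V : Type} (B : Bars V) (k : ℕ) : SimpleGraph V where
  Adj u v := u ≠ v ∧ B.SeesAround k u v
  symm := ⟨fun u v h => ⟨h.1.symm, B.around_comm k u v h.2⟩⟩
  loopless := ⟨fun _ h => h.1 rfl⟩

/-- **The maximum number of edges of a bar `k`-visibility graph on the cylinder.** -/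
theorem greatest_cyl (k n : ℕ) : IsGreatest (cylinderEdgeNumbers k n)
    (if n ≤ 4 * k + 4 then n.choose 2 else (k + 1) * (3 * n - 4 * k - 6)) := by
  split_ifs with hn
  · obtain ⟨B, hB⟩ := complete (k := k) (n := n) (by omega)
    refine ⟨⟨⊤, ⟨B, fun u v huv => ⟨fun _ => ((hB u v huv).1 huv).around, fun _ => huv⟩⟩,
      ncard_top n⟩, ?_⟩
    rintro m ⟨G, -, rfl⟩
    exact ncard_le G
  · have hn' : 4 * (k + 1) ≤ n := by omega
    have e : (((k + 1) * (3 * n - 4 * k - 6) : ℕ) : ℤ) = (k + 1) * (3 * n - 4 * k - 6) := by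
      rw [Nat.sub_sub, Nat.cast_mul, Nat.cast_sub (by omega)]
      push_cast
      ring
    refine ⟨⟨(ext hn').cyl k, ⟨ext hn', fun _ _ h => ⟨fun hh => hh.2, fun hh => ⟨h, hh⟩⟩⟩, ?_⟩, ?_⟩
    · have h1 := upper_aux (G := (ext hn').cyl k) hn' (ext hn') fun _ _ h => h.2
      have h2 := lower (k := k) hn'
      have h4 : ((ext hn').graph k).edgeSet.ncard ≤ ((ext hn').cyl k).edgeSet.ncard := by
        apply Set.ncard_le_ncard _ (Set.toFinite _)
        apply SimpleGraph.edgeSet_subset_edgeSet.2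
        intro u v h
        exact ⟨h.1, h.2.around⟩
      have h5 : (((ext hn').graph k).edgeSet.ncard : ℤ) ≤ ((ext hn').cyl k).edgeSet.ncard := by
        exact_mod_cast h4
      have h3 : (((ext hn').cyl k).edgeSet.ncard : ℤ) =
          (((k + 1) * (3 * n - 4 * k - 6) : ℕ) : ℤ) := by
        rw [e]
        exact le_antisymm h1 (le_trans h2 h5)
      exact_mod_cast h3
    · rintro m ⟨G, hG, rfl⟩
      have h1 := upper_cyl hn' hG
      rw [← e] at h1
      exact_mod_cast h1

end

end Pool.Agent.V8H58.BV
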