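import Pool.Agent.V8H58.BV.Defs
import Pool.Agent.V8H58.BV.Count

/-!
# Bar `k`-visibility graphs: the upper bound for the number of edges
-/

open Finset

namespace Pool.Agent.V8H58.BV

noncomputable section

variable {n : ℕ} (B : Bars (Fin n))

/-- the end points of the bars: `(v, false)` is the left one, `(v, true)` the right one -/
def crd (e : Fin n × Bool) : ℝ := if e.2 then B.r e.1 else B.l e.1

/-- tie breaking -/
def idx (e : Fin n × Bool) : ℕ := 2 * e.1 + if e.2 then 1 else 0

/-- the order of the end points -/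
def before (e' e : Fin n × Bool) : Prop :=
  crd B e' < crd B e ∨ (crd B e' = crd B e ∧ idx e' < idx e)

lemma before_trans {e₁ e₂ e₃ : Fin n × Bool} (h1 : before B e₁ e₂) (h2 : before B e₂ e₃) :
    before B e₁ e₃ := by
  rcases h1 with h1 | ⟨h1, h1'⟩ <;> rcases h2 with h2 | ⟨h2, h2'⟩
  · exact Or.inl (h1.trans h2)
  · exact Or.inl (h2 ▸ h1)
  · exact Or.inl (h1 ▸ h2)
  · exact Or.inr ⟨h1.trans h2, h1'.trans h2'⟩

lemma before_irrefl (e : Fin n × Bool) : ¬ before B e e := by
  rintro (h | ⟨-, h⟩)
  · exact lt_irrefl _ h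
  · exact lt_irrefl _ h

lemma idx_inj {e e' : Fin n × Bool} (h : idx e = idx e') : e = e' := by
  obtain ⟨v, b⟩ := e
  obtain ⟨v', b'⟩ := e'
  unfold idx at h
  cases b <;> cases b' <;> simp at h ⊢
  · exact Fin.ext (by omega)
  · omega
  · omega
  · exact Fin.ext (by omega)

lemma before_total {e e' : Fin n × Bool} (h : e ≠ e') : before B e e' ∨ before B e' e := by
  rcases lt_trichotomy (crd B e) (crd B e') with h1 | h1 | h1
  · exact Or.inl (Or.inl h1)
  · rcases lt_trichotomy (idx e) (idx e') with h2 | h2 | h2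
    · exact Or.inl (Or.inr ⟨h1, h2⟩)
    · exact absurd (idx_inj h2) h
    · exact Or.inr (Or.inr ⟨h1.symm, h2⟩)
  · exact Or.inr (Or.inl h1)

open Classical in
/-- the number of the end points before `e` -/
def rk (e : Fin n × Bool) : ℕ := (univ.filter fun e' => before B e' e).card

lemma rk_lt {e e' : Fin n × Bool} (h : before B e e') : rk B e < rk B e' := by
  classical
  unfold rk
  apply card_lt_card
  refine ⟨fun z hz => ?_, fun hs => ?_⟩
  · simp only [mem_filter, mem_univ, true_and] at hz ⊢
    exact before_trans B hz h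
  · have := hs (mem_filter.2 ⟨mem_univ _, h⟩)
    simp only [mem_filter, mem_univ, true_and] at this
    exact before_irrefl B e this

lemma rk_inj {e e' : Fin n × Bool} (h : rk B e = rk B e') : e = e' := by
  by_contra hne
  rcases before_total B hne with h1 | h1
  · have := rk_lt B h1; omega
  · have := rk_lt B h1; omega

lemma before_of_rk {e e' : Fin n × Bool} (h : rk B e < rk B e') : before B e e' := by
  by_contra hne
  have : e ≠ e' := by rintro rfl; omega
  rcases before_total B this with h1 | h1
  · exact hne h1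
  · have := rk_lt B h1; omega

lemma crd_le {e e' : Fin n × Bool} (h : before B e e') : crd B e ≤ crd B e' := by
  rcases h with h | ⟨h, -⟩
  · exact h.le
  · exact h.le

/-- the number of the end points to the left of `x` -/
def cnt (x : ℝ) : ℕ := (univ.filter fun e : Fin n × Bool => crd B e < x).card

lemma rk_lt_cnt {x : ℝ} (e : Fin n × Bool) : rk B e < cnt B x ↔ crd B e < x := by
  classical
  constructor
  · intro h
    by_contra hc
    push Not at hc
    apply absurd h
    push Not
    unfold rk cnt
    apply card_le_card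
    intro z hz
    simp only [mem_filter, mem_univ, true_and] at hz ⊢
    exact Or.inl (hz.trans_le hc)
  · intro h
    unfold rk cnt
    apply card_lt_card
    refine ⟨fun z hz => ?_, fun hs => ?_⟩
    · simp only [mem_filter, mem_univ, true_and] at hz ⊢
      exact (crd_le B hz).trans_lt h
    · have h1 : e ∈ univ.filter fun e : Fin n × Bool => crd B e < x := by
        simp only [mem_filter, mem_univ, true_and]
        exact h
      have := hs h1
      simp only [mem_filter, mem_univ, true_and] at this
      exact before_irrefl B e this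

/-- the rank of the left end point -/
def aa (v : Fin n) : ℕ := rk B (v, false)

/-- the rank of the right end point -/
def bb (v : Fin n) : ℕ := rk B (v, true)

lemma aa_lt_bb (v : Fin n) : aa B v < bb B v := by
  apply rk_lt
  left
  simp only [crd]
  exact B.lt v

lemma aa_inj : Function.Injective (aa B) := fun u v h => by
  have := rk_inj B h
  exact congrArg Prod.fst this

lemma bb_inj : Function.Injective (bb B) := fun u v h => by
  have := rk_inj B h
  exact congrArg Prod.fst this

lemma aa_ne_bb (u v : Fin n) : aa B u ≠ bb B v := fun h => by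
  have := congrArg Prod.snd (rk_inj B h)
  simp at this

lemma st_inj (t : ℕ) : Set.InjOn B.y (st (aa B) (bb B) t : Finset (Fin n)) := by
  intro u hu v hv huv
  by_contra hne
  rw [mem_coe, mem_st] at hu hv
  have h1 : B.l u ≤ B.r v := by
    have := crd_le B (before_of_rk B (show rk B (u, false) < rk B (v, true) from by
      have := hu.1; have := hv.2; unfold aa bb at *; omega))
    simpa [crd] using this
  have h2 : B.l v ≤ B.r u := by
    have := crd_le B (before_of_rk B (show rk B (v, false) < rk B (u, true) from by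
      have := hv.1; have := hu.2; unfold aa bb at *; omega))
    simpa [crd] using this
  have hd := B.disj u v hne
  rw [Set.disjoint_left] at hd
  have hlu := B.lt u
  have hlv := B.lt v
  apply hd (a := (max (B.l u) (B.l v), B.y u))
  · exact ⟨le_max_left _ _, max_le hlu.le h2, rfl⟩
  · exact ⟨le_max_right _ _, max_le h1 hlv.le, huv⟩

lemma mem_st_iff (x : ℝ) (v : Fin n) :
    v ∈ st (aa B) (bb B) (cnt B x) ↔ B.l v < x ∧ x ≤ B.r v := by
  rw [mem_st]
  have h1 := rk_lt_cnt B (x := x) (v, false)
  have h2 := rk_lt_cnt B (x := x) (v, true)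
  simp only [crd, if_true, Bool.false_eq_true, if_false] at h1 h2
  unfold aa bb
  rw [h1, ← not_lt, h2, not_lt]

lemma cnt_le (x : ℝ) : cnt B x ≤ 2 * n := by
  unfold cnt
  refine (card_filter_le _ _).trans ?_
  simp [mul_comm]

lemma rk_le (e : Fin n × Bool) : rk B e ≤ 2 * n := by
  classical
  unfold rk
  refine (card_filter_le _ _).trans ?_
  simp [mul_comm]

/-- a pair which sees each other, the lower bar first -/
lemma pair_mem {k : ℕ} {u v : Fin n} {x₁ x₂ y₁ y₂ : ℝ} (hx : x₁ < x₂) (hy : y₁ < y₂)
    (hu : Set.Icc x₁ x₂ ×ˢ {y₁} ⊆ B.bar u) (hv : Set.Icc x₁ x₂ ×ˢ {y₂} ⊆ B.bar v)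
    (hk : {w | w ≠ u ∧ w ≠ v ∧
        (B.bar w ∩ Set.Icc x₁ x₂ ×ˢ Set.Icc y₁ y₂).Nonempty}.ncard ≤ k ∨
      {w | w ≠ u ∧ w ≠ v ∧
        (B.bar w ∩ Set.Icc x₁ x₂ ×ˢ (Set.Ioo y₁ y₂)ᶜ).Nonempty}.ncard ≤ k) :
    (u, v) ∈ tot B.y (k + 1) (aa B) (bb B) (2 * n + 1) := by
  have hu1 : (x₁, y₁) ∈ B.bar u := hu ⟨⟨le_rfl, hx.le⟩, rfl⟩
  have hu2 : (x₂, y₁) ∈ B.bar u := hu ⟨⟨hx.le, le_rfl⟩, rfl⟩
  have hv1 : (x₁, y₂) ∈ B.bar v := hv ⟨⟨le_rfl, hx.le⟩, rfl⟩
  have hv2 : (x₂, y₂) ∈ B.bar v := hv ⟨⟨hx.le, le_rfl⟩, rfl⟩
  have eu : y₁ = B.y u := hu1.2.2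
  have ev : y₂ = B.y v := hv1.2.2
  set S := st (aa B) (bb B) (cnt B x₂) with hS
  have mu : u ∈ S := (mem_st_iff B x₂ u).2 ⟨hu1.1.trans_lt hx, hu2.2.1⟩
  have mv : v ∈ S := (mem_st_iff B x₂ v).2 ⟨hv1.1.trans_lt hx, hv2.2.1⟩
  have hlt : B.y u < B.y v := by rw [← eu, ← ev]; exact hy
  refine mem_biUnion.2 ⟨cnt B x₂, mem_range.2 ?_, ?_⟩
  · have := cnt_le B x₂; omega
  · rw [mem_cyc]
    refine ⟨⟨mu, mv⟩, hlt, ?_⟩
    rcases hk with hk | hk
    · left
      -- the elements below `v`: those below `u`, `u`, and those strictly between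
      have hsub : (S.filter fun z => B.y z < B.y v) ⊆
          insert u ((S.filter fun z => B.y z < B.y u) ∪
            (S.filter fun z => B.y u < B.y z ∧ B.y z < B.y v)) := by
        intro z hz
        rw [mem_filter] at hz
        rw [mem_insert, mem_union, mem_filter, mem_filter]
        rcases lt_trichotomy (B.y z) (B.y u) with h1 | h1 | h1
        · exact Or.inr (Or.inl ⟨hz.1, h1⟩)
        · exact Or.inl (st_inj B _ hz.1 mu h1)
        · exact Or.inr (Or.inr ⟨hz.1, h1, hz.2⟩)
      have hbt : (S.filter fun z => B.y u < B.y z ∧ B.y z < B.y v).card ≤ k := by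
        refine le_trans ?_ hk
        rw [← Set.ncard_coe_finset]
        apply Set.ncard_le_ncard _ (Set.toFinite _)
        intro z hz
        rw [mem_coe, mem_filter] at hz
        obtain ⟨hz1, hz2, hz3⟩ := hz
        have hz4 := (mem_st_iff B x₂ z).1 hz1
        refine ⟨?_, ?_, (x₂, B.y z), ?_, ?_⟩
        · rintro rfl; exact lt_irrefl _ hz2
        · rintro rfl; exact lt_irrefl _ hz3
        · exact ⟨hz4.1.le, hz4.2, rfl⟩
        · refine ⟨⟨hx.le, le_rfl⟩, ?_, ?_⟩
          · rw [eu]; exact hz2.le
          · rw [ev]; exact hz3.le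
      have h1 := card_le_card hsub
      have h2 := card_insert_le u ((S.filter fun z => B.y z < B.y u) ∪
            (S.filter fun z => B.y u < B.y z ∧ B.y z < B.y v))
      have h3 := card_union_le (S.filter fun z => B.y z < B.y u)
            (S.filter fun z => B.y u < B.y z ∧ B.y z < B.y v)
      show (S.filter fun z => B.y z < B.y v).card ≤
        (S.filter fun z => B.y z < B.y u).card + (k + 1)
      omega
    · right
      -- all elements: those below `v`, `v`, and those above `v`
      have hsub : S ⊆ insert v ((S.filter fun z => B.y z < B.y v) ∪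
            (S.filter fun z => B.y v < B.y z)) := by
        intro z hz
        rw [mem_insert, mem_union, mem_filter, mem_filter]
        rcases lt_trichotomy (B.y z) (B.y v) with h1 | h1 | h1
        · exact Or.inr (Or.inl ⟨hz, h1⟩)
        · exact Or.inl (st_inj B _ hz mv h1)
        · exact Or.inr (Or.inr ⟨hz, h1⟩)
      have hbt : (S.filter fun z => B.y z < B.y u).card + (S.filter fun z => B.y v < B.y z).card
          ≤ k := by
        refine le_trans ?_ hk
        rw [← card_union_of_disjoint, ← Set.ncard_coe_finset]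
        · apply Set.ncard_le_ncard _ (Set.toFinite _)
          intro z hz
          rw [mem_coe, mem_union, mem_filter, mem_filter] at hz
          have hzS : z ∈ S := by
            rcases hz with hz | hz
            · exact hz.1
            · exact hz.1
          have hz4 := (mem_st_iff B x₂ z).1 hzS
          refine ⟨?_, ?_, (x₂, B.y z), ?_, ?_⟩
          · rintro rfl
            rcases hz with hz | hz
            · exact lt_irrefl _ hz.2
            · exact lt_irrefl _ (hlt.trans hz.2)
          · rintro rfl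
            rcases hz with hz | hz
            · exact lt_irrefl _ (hlt.trans hz.2)
            · exact lt_irrefl _ hz.2
          · exact ⟨hz4.1.le, hz4.2, rfl⟩
          · refine ⟨⟨hx.le, le_rfl⟩, ?_⟩
            rintro ⟨h1, h2⟩
            simp only at h1 h2
            rcases hz with hz | hz
            · rw [eu] at h1; exact lt_irrefl _ (h1.trans hz.2)
            · rw [ev] at h2; exact lt_irrefl _ (h2.trans hz.2)
        · rw [disjoint_left]
          intro z h1 h2
          rw [mem_filter] at h1 h2
          exact lt_irrefl _ (h1.2.trans (hlt.trans h2.2))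
      have h1 := card_le_card hsub
      have h2 := card_insert_le v ((S.filter fun z => B.y z < B.y v) ∪
            (S.filter fun z => B.y v < B.y z))
      have h3 := card_union_le (S.filter fun z => B.y z < B.y v)
            (S.filter fun z => B.y v < B.y z)
      show (S.filter fun z => B.y z < B.y u).card + S.card ≤
        (S.filter fun z => B.y z < B.y v).card + (k + 1)
      omega

theorem Bars.Sees.around {V : Type} {B : Bars V} {k : ℕ} {u v : V} (h : B.Sees k u v) :
    B.SeesAround k u v := by
  obtain ⟨x₁, x₂, y₁, y₂, hx, hy, hc, hk⟩ := h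
  exact ⟨x₁, x₂, y₁, y₂, hx, hy, hc, Or.inl hk⟩

/-- **The upper bound** for all pairs which see each other on the cylinder. -/
theorem upper_aux {k : ℕ} (hn : 4 * (k + 1) ≤ n) {G : SimpleGraph (Fin n)} (B : Bars (Fin n))
    (hB : ∀ u v, G.Adj u v → B.SeesAround k u v) :
    (G.edgeSet.ncard : ℤ) ≤ (k + 1) * (3 * n - 4 * k - 6) := by
  have key := tot_bound B.y (r := k + 1) (by omega) (aa_lt_bb B) (aa_inj B) (bb_inj B)
    (aa_ne_bb B) (st_inj B) (by simpa using hn) (2 * n + 1)
    (fun v => by have := rk_le B (v, true); unfold bb; omega)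
  have hle : G.edgeSet.ncard ≤ (tot B.y (k + 1) (aa B) (bb B) (2 * n + 1)).card := by
    have hsub : G.edgeSet ⊆ ((tot B.y (k + 1) (aa B) (bb B) (2 * n + 1)).image
        (fun p => s(p.1, p.2)) : Finset (Sym2 (Fin n))) := by
      intro e he
      induction e using Sym2.ind with
      | _ u v =>
        rw [SimpleGraph.mem_edgeSet] at he
        obtain ⟨x₁, x₂, y₁, y₂, hx, hy, hc, hk⟩ := hB u v he
        rw [mem_coe, mem_image]
        rcases hc with ⟨h1, h2⟩ | ⟨h1, h2⟩
        · exact ⟨(u, v), pair_mem B hx hy h1 h2 hk, rfl⟩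
        · refine ⟨(v, u), pair_mem B hx hy h1 h2 ?_, Sym2.eq_swap⟩
          have hh : ∀ T : Set (ℝ × ℝ), {w | w ≠ v ∧ w ≠ u ∧ (B.bar w ∩ T).Nonempty} =
              {w | w ≠ u ∧ w ≠ v ∧ (B.bar w ∩ T).Nonempty} := by
            intro T
            ext w
            simp only [Set.mem_ofPred_eq]
            tauto
          rw [hh, hh]
          exact hk
    refine (Set.ncard_le_ncard hsub (Set.toFinite _)).trans ?_
    rw [Set.ncard_coe_finset]
    exact card_image_le
  have : ((tot B.y (k + 1) (aa B) (bb B) (2 * n + 1)).card : ℤ) ≤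
      (k + 1) * (3 * n - 4 * k - 6) := by
    refine key.trans (le_of_eq ?_)
    rw [Fintype.card_fin]
    push_cast
    ring
  exact (by exact_mod_cast hle : (G.edgeSet.ncard : ℤ) ≤ _).trans this

/-- **The upper bound** in the plane. -/
theorem upper {k : ℕ} (hn : 4 * (k + 1) ≤ n) {G : SimpleGraph (Fin n)}
    (hG : IsBarVisibilityGraph k G) :
    (G.edgeSet.ncard : ℤ) ≤ (k + 1) * (3 * n - 4 * k - 6) := by
  obtain ⟨B, hB⟩ := hG
  exact upper_aux hn B fun u v h => ((hB u v h.ne).1 h).around

/-- **The upper bound** on the cylinder. -/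
theorem upper_cyl {k : ℕ} (hn : 4 * (k + 1) ≤ n) {G : SimpleGraph (Fin n)}
    (hG : IsCylinderVisibilityGraph k G) :
    (G.edgeSet.ncard : ℤ) ≤ (k + 1) * (3 * n - 4 * k - 6) := by
  obtain ⟨B, hB⟩ := hG
  exact upper_aux hn B fun u v h => (hB u v h.ne).1 h

end

end Pool.Agent.V8H58.BV
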